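import Mathlib

set_option autoImplicit false

open Finset

namespace Pool.Agent.Results.MP_aa3a86_gt.FacetBettiBound

variable {R : Type} [CommRing R] [Algebra ℚ R] {d : ℕ}

/-- The Koszul differential of the sequence `w` on `R ⊗ Λ(e_0, ..., e_{d-1})`, as a function; a
chain is given by its coefficients `f T` at the exterior monomials `e_T`. -/
def koszulFun (w : Fin d → R) (f : Finset (Fin d) → R) (T : Finset (Fin d)) : R :=
  ∑ i ∈ Tᶜ, (-1) ^ (T.filter (· < i)).card * (w i * f (insert i T))

theorem koszulFun_add (w : Fin d → R) (f g : Finset (Fin d) → R) :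
    koszulFun w (f + g) = koszulFun w f + koszulFun w g := by
  funext T
  simp only [koszulFun, Pi.add_apply, mul_add, Finset.sum_add_distrib]

theorem koszulFun_smul (w : Fin d → R) (c : ℚ) (f : Finset (Fin d) → R) :
    koszulFun w (c • f) = c • koszulFun w f := by
  funext T
  simp only [koszulFun, Pi.smul_apply, mul_smul_comm, Finset.smul_sum]

/-- The Koszul differential of the sequence `w`, as a `ℚ`-linear map. -/
def koszulD (w : Fin d → R) : (Finset (Fin d) → R) →ₗ[ℚ] (Finset (Fin d) → R) where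
  toFun := koszulFun w
  map_add' := koszulFun_add w
  map_smul' := koszulFun_smul w

theorem koszulD_apply (w : Fin d → R) (f : Finset (Fin d) → R) (T : Finset (Fin d)) :
    koszulD w f T = ∑ i ∈ Tᶜ, (-1) ^ (T.filter (· < i)).card * (w i * f (insert i T)) := rfl

theorem card_filter_insert (T : Finset (Fin d)) (i j : Fin d) (hi : i ∉ T) :
    ((insert i T).filter (· < j)).card = (T.filter (· < j)).card + (if i < j then 1 else 0) := by
  rw [Finset.filter_insert]
  split_ifs with h
  · rw [Finset.card_insert_of_notMem]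
    simp [hi]
  · simp

theorem koszulD_comp_self (w : Fin d → R) (f : Finset (Fin d) → R) :
    koszulD w (koszulD w f) = 0 := by
  funext T
  rw [koszulD_apply]
  simp only [koszulD_apply, Finset.mul_sum, Pi.zero_apply]
  rw [Finset.sum_sigma']
  refine Finset.sum_involution (fun a _ => ⟨a.2, a.1⟩) ?_ ?_ ?_ ?_
  · rintro ⟨i, j⟩ hij
    simp only [Finset.mem_sigma, Finset.mem_compl, Finset.mem_insert, not_or] at hij
    obtain ⟨hi, hji, hj⟩ := hij
    simp only
    rw [card_filter_insert T i j hi, card_filter_insert T j i hj, Finset.insert_comm j i T]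
    rcases lt_or_gt_of_ne hji with h | h
    · rw [if_neg (not_lt.mpr h.le), if_pos h]
      ring
    · rw [if_pos h, if_neg (not_lt.mpr h.le)]
      ring
  · rintro ⟨i, j⟩ hij _
    simp only [Finset.mem_sigma, Finset.mem_compl, Finset.mem_insert, not_or] at hij
    intro h
    simp only [Sigma.mk.injEq, heq_eq_eq] at h
    exact hij.2.1 h.1
  · rintro ⟨i, j⟩ hij
    simp only [Finset.mem_sigma, Finset.mem_compl, Finset.mem_insert, not_or] at hij ⊢
    exact ⟨hij.2.2, fun h => hij.2.1 h.symm, hij.1⟩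
  · rintro ⟨i, j⟩ hij
    rfl

theorem koszulD_add (w w' : Fin d → R) (f : Finset (Fin d) → R) :
    koszulD (w + w') f = koszulD w f + koszulD w' f := by
  funext T
  simp only [koszulD_apply, Pi.add_apply, add_mul, mul_add, Finset.sum_add_distrib]

theorem koszulD_smul (s : ℚ) (w : Fin d → R) (f : Finset (Fin d) → R) :
    koszulD (s • w) f = s • koszulD w f := by
  funext T
  simp only [koszulD_apply, Pi.smul_apply, Finset.smul_sum, smul_mul_assoc, mul_smul_comm]

theorem koszulD_anticomm (w w' : Fin d → R) (f : Finset (Fin d) → R) :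
    koszulD w (koszulD w' f) = - koszulD w' (koszulD w f) := by
  have h := koszulD_comp_self (w + w') f
  rw [koszulD_add w w' f, map_add, koszulD_add, koszulD_add, koszulD_comp_self,
    koszulD_comp_self] at h
  simp only [zero_add, add_zero] at h
  rw [add_comm] at h
  exact eq_neg_of_add_eq_zero_left h

/-- common kernel bound -/
theorem finrank_le_two_pow_mul {Λ : Type} [AddCommGroup Λ] [Module ℚ Λ] [FiniteDimensional ℚ Λ]
    {ι : Type} [DecidableEq ι] (w : ι → Λ →ₗ[ℚ] Λ) (s : Finset ι)
    (hsq : ∀ i ∈ s, ∀ x, w i (w i x) = 0)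
    (hanti : ∀ i ∈ s, ∀ j ∈ s, ∀ x, w i (w j x) = - w j (w i x)) :
    Module.finrank ℚ Λ ≤ 2 ^ s.card *
      Module.finrank ℚ (⨅ i ∈ s, LinearMap.ker (w i) : Submodule ℚ Λ) := by
  induction s using Finset.induction_on with
  | empty =>
    have h : (⨅ i ∈ (∅ : Finset ι), LinearMap.ker (w i) : Submodule ℚ Λ) = ⊤ := by
      rw [eq_top_iff]
      intro x _
      simp
    rw [h, finrank_top]
    simp
  | insert a s ha ih =>
    have ih' := ih (fun i hi => hsq i (Finset.mem_insert_of_mem hi))
      (fun i hi j hj => hanti i (Finset.mem_insert_of_mem hi) j (Finset.mem_insert_of_mem hj))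
    set Z : Submodule ℚ Λ := ⨅ i ∈ s, LinearMap.ker (w i) with hZ
    have hins : (⨅ i ∈ insert a s, LinearMap.ker (w i) : Submodule ℚ Λ)
        = LinearMap.ker (w a) ⊓ Z := by
      rw [Finset.iInf_insert]
    rw [hins, Finset.card_insert_of_notMem ha, pow_succ]
    have hmemZ : ∀ x, x ∈ Z ↔ ∀ i ∈ s, w i x = 0 := by
      intro x
      simp [hZ, Submodule.mem_iInf]
    have hrn := LinearMap.finrank_range_add_finrank_ker ((w a).domRestrict Z)
    have hrange : Module.finrank ℚ (LinearMap.range ((w a).domRestrict Z))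
        ≤ Module.finrank ℚ (LinearMap.ker (w a) ⊓ Z : Submodule ℚ Λ) := by
      apply Submodule.finrank_mono
      rintro _ ⟨⟨x, hx⟩, rfl⟩
      rw [hmemZ] at hx
      refine ⟨?_, ?_⟩
      · simp [LinearMap.domRestrict_apply, hsq a (Finset.mem_insert_self _ _) x]
      · rw [SetLike.mem_coe, hmemZ]
        intro i hi
        rw [LinearMap.domRestrict_apply, hanti i (Finset.mem_insert_of_mem hi) a
          (Finset.mem_insert_self _ _), hx i hi]
        simp
    have hker : Module.finrank ℚ (LinearMap.ker ((w a).domRestrict Z))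
        = Module.finrank ℚ (LinearMap.ker (w a) ⊓ Z : Submodule ℚ Λ) := by
      have h1 : LinearMap.ker ((w a).domRestrict Z)
          = Submodule.comap Z.subtype (LinearMap.ker (w a)) := by
        ext x
        simp
      rw [h1, ← Submodule.finrank_map_subtype_eq Z, Submodule.map_comap_subtype, inf_comm]
    have : Module.finrank ℚ Z ≤ 2 * Module.finrank ℚ (LinearMap.ker (w a) ⊓ Z : Submodule ℚ Λ) := by
      omega
    calc Module.finrank ℚ Λ ≤ 2 ^ s.card * Module.finrank ℚ Z := ih'
      _ ≤ 2 ^ s.card * (2 * Module.finrank ℚ (LinearMap.ker (w a) ⊓ Z : Submodule ℚ Λ)) :=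
          Nat.mul_le_mul_left _ this
      _ = _ := by ring

/-- lower semicontinuity of the rank -/
theorem exists_rank_le {F : Type} [AddCommGroup F] [Module ℚ F] [FiniteDimensional ℚ F]
    (A B : F →ₗ[ℚ] F) :
    ∃ s : ℚ, s ≠ 0 ∧ Module.finrank ℚ (LinearMap.range A)
      ≤ Module.finrank ℚ (LinearMap.range (A + s • B)) := by
  obtain ⟨g, hg⟩ := LinearMap.exists_rightInverse_of_surjective A.rangeRestrict
    (LinearMap.range_rangeRestrict A)
  obtain ⟨P, hP⟩ := LinearMap.exists_leftInverse_of_injective (LinearMap.range A).subtype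
    (Submodule.ker_subtype _)
  set N : LinearMap.range A →ₗ[ℚ] LinearMap.range A := P ∘ₗ B ∘ₗ g with hN
  have hfin : Set.Finite ({μ : ℚ | Module.End.HasEigenvalue N μ} ∪ {0}) :=
    (Module.End.finite_hasEigenvalue N).union (Set.finite_singleton 0)
  obtain ⟨μ, hμ⟩ := hfin.infinite_compl.nonempty
  simp only [Set.mem_compl_iff, Set.mem_union, Set.mem_ofPred_eq, Set.mem_singleton_iff,
    not_or] at hμ
  obtain ⟨hμ1, hμ0⟩ := hμ
  refine ⟨-μ⁻¹, by simpa using hμ0, ?_⟩
  set C := A + (-μ⁻¹) • B with hC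
  have hPCg : ∀ x : LinearMap.range A, P (C (g x)) = x - μ⁻¹ • N x := by
    intro x
    have h1 : A (g x) = (x : F) := by
      have := congrArg (fun (h : LinearMap.range A →ₗ[ℚ] LinearMap.range A) => ((h x : LinearMap.range A) : F)) hg
      simpa using this
    have h2 : P (x : F) = x := by
      have := congrArg (fun (h : LinearMap.range A →ₗ[ℚ] LinearMap.range A) => h x) hP
      simpa using this
    rw [hC, LinearMap.add_apply, LinearMap.smul_apply, map_add, h1, h2, map_smul, hN]
    simp [sub_eq_add_neg]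
  have hinj : Function.Injective ((C ∘ₗ g).rangeRestrict) := by
    rw [← LinearMap.ker_eq_bot, LinearMap.ker_rangeRestrict, LinearMap.ker_eq_bot']
    intro x hx
    have h3 : C (g x) = 0 := hx
    have h4 := hPCg x
    rw [h3, map_zero] at h4
    have h5 : N x = μ • x := by
      have h6 : μ⁻¹ • N x = x := (sub_eq_zero.mp h4.symm).symm
      calc N x = μ • (μ⁻¹ • N x) := by rw [smul_smul, mul_inv_cancel₀ hμ0, one_smul]
        _ = μ • x := by rw [h6]
    by_contra hx0
    exact hμ1 (Module.End.hasEigenvalue_of_hasEigenvector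
      ⟨Module.End.mem_eigenspace_iff.mpr h5, hx0⟩)
  calc Module.finrank ℚ (LinearMap.range A) ≤ Module.finrank ℚ (LinearMap.range (C ∘ₗ g)) :=
        LinearMap.finrank_le_finrank_of_injective hinj
    _ ≤ Module.finrank ℚ (LinearMap.range C) :=
        Submodule.finrank_mono (LinearMap.range_comp_le_range g C)

section Abstract

variable {R : Type} [CommRing R] [Algebra ℚ R] {d m : ℕ}

/-- The Koszul cycles. -/
def cycles (w : Fin d → R) : Submodule ℚ (Finset (Fin d) → R) := LinearMap.ker (koszulD w)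

/-- The Koszul boundaries. -/
def boundaries (w : Fin d → R) : Submodule ℚ (Finset (Fin d) → R) :=
  LinearMap.range (koszulD w)

/-- The total Koszul homology: cycles modulo boundaries. -/
abbrev KoszulHomology (w : Fin d → R) : Type := cycles w ⧸ (boundaries w).submoduleOf (cycles w)

/-- The total dimension of the Koszul homology over `ℚ`. -/
noncomputable def totalRank (w : Fin d → R) : Cardinal := Module.rank ℚ (KoszulHomology w)

theorem map_sign_mul {M : Type} [AddCommGroup M] [Module ℚ M] (L : R →ₗ[ℚ] M) (n : ℕ) (y : R) :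
    L ((-1) ^ n * y) = (-1 : ℚ) ^ n • L y := by
  rcases neg_one_pow_eq_or ℚ n with h | h <;> rcases neg_one_pow_eq_or R n with h' | h'
  · rw [h, h']; simp
  · rcases Nat.even_or_odd n with hn | hn
    · rw [hn.neg_one_pow, hn.neg_one_pow]; simp
    · rw [hn.neg_one_pow, hn.neg_one_pow]; simp
  · rcases Nat.even_or_odd n with hn | hn
    · rw [hn.neg_one_pow, hn.neg_one_pow]; simp
    · rw [hn.neg_one_pow, hn.neg_one_pow]; simp
  · rw [h, h']; simp

theorem main_abstract (σ : Finset (Fin m))
    (τ : ℕ → R →ₗ[ℚ] R) (hτfin : ∀ q, FiniteDimensional ℚ (LinearMap.range (τ q)))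
    (hττ : ∀ q g, τ q (τ q g) = τ q g)
    (hτmono : ∀ q g, τ q g = g → τ (q + 1) g = g)
    (θ : Fin d → R) (hθ : ∀ q k g, τ (q + 1) (θ k * g) = θ k * τ q g)
    (u : R) (e : ℕ) (hu : τ e u = u)
    (c : Fin m → Fin d → ℚ)
    (ev : ℚ → R →ₐ[ℚ] ℚ)
    (hevθ : ∀ s k, ev s (θ k) = s * ∑ i ∈ σ, c i k)
    (hevu : ∀ s, s ≠ 0 → ev s u ≠ 0)
    (x : Fin m → R) (huθ : ∀ k, u * θ k = ∑ i ∈ σ, c i k • (u * x i)) :
    (2 : Cardinal) ^ d ≤ 2 ^ σ.card * totalRank θ := by
  classical
  -- the truncation
  have hτmono' : ∀ q r g, τ q g = g → q ≤ r → τ r g = g := by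
    intro q r g hg hqr
    induction r, hqr using Nat.le_induction with
    | base => exact hg
    | succ n hn ih => exact hτmono n g ih
  let p : ℕ := d + e
  let Tr : (Finset (Fin d) → R) →ₗ[ℚ] (Finset (Fin d) → R) :=
    LinearMap.pi (fun S => τ (p - S.card) ∘ₗ LinearMap.proj S)
  have hTr : ∀ f S, Tr f S = τ (p - S.card) (f S) := fun f S => rfl
  have hcard : ∀ S : Finset (Fin d), S.card ≤ d := fun S => by
    simpa using Finset.card_le_univ S
  let F : Submodule ℚ (Finset (Fin d) → R) := LinearMap.range Tr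
  have hF : ∀ f, f ∈ F ↔ Tr f = f := by
    intro f
    constructor
    · rintro ⟨g, rfl⟩
      funext S
      rw [hTr, hTr, hττ]
    · intro h
      exact ⟨f, h⟩
  have hFfin : FiniteDimensional ℚ F := by
    have h1 : ∀ f : F, ∀ S, (f : Finset (Fin d) → R) S ∈ LinearMap.range (τ (p - S.card)) := by
      intro f S
      have := (hF f).mp f.2
      rw [← this, hTr]
      exact ⟨_, rfl⟩
    let L : F →ₗ[ℚ] ((S : Finset (Fin d)) → LinearMap.range (τ (p - S.card))) :=
      LinearMap.pi (fun S => LinearMap.codRestrict _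
        (LinearMap.proj S ∘ₗ F.subtype) (fun f => h1 f S))
    refine FiniteDimensional.of_injective L ?_
    intro f g hfg
    apply Subtype.ext
    funext S
    have := congrArg (fun h => ((h S : LinearMap.range (τ (p - S.card))) : R)) hfg
    exact this
  -- commutation
  have hcomm : ∀ f, Tr (koszulD θ f) = koszulD θ (Tr f) := by
    intro f
    funext T
    rw [hTr, koszulD_apply, koszulD_apply, map_sum]
    refine Finset.sum_congr rfl fun k hk => ?_
    have hkT : k ∉ T := Finset.mem_compl.mp hk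
    have hc : (insert k T).card = T.card + 1 := Finset.card_insert_of_notMem hkT
    have hle : T.card + 1 ≤ d := by rw [← hc]; exact hcard _
    have hp : p - T.card = (p - (insert k T).card) + 1 := by
      rw [hc]; omega
    rw [map_sign_mul, hp, hθ, hTr]
    rcases Nat.even_or_odd (T.filter (· < k)).card with hn | hn
    · rw [hn.neg_one_pow, hn.neg_one_pow]; simp
    · rw [hn.neg_one_pow, hn.neg_one_pow]; simp
  let a : Fin d → R := fun k => algebraMap ℚ R (∑ i ∈ σ, c i k)
  have hDθF : ∀ f ∈ F, koszulD θ f ∈ F := by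
    intro f hf
    rw [hF] at hf ⊢
    rw [hcomm, hf]
  have hDaF : ∀ f ∈ F, koszulD a f ∈ F := by
    intro f hf
    rw [hF] at hf ⊢
    funext T
    rw [hTr, koszulD_apply, map_sum]
    refine Finset.sum_congr rfl fun k hk => ?_
    have hkT : k ∉ T := Finset.mem_compl.mp hk
    have hc : (insert k T).card = T.card + 1 := Finset.card_insert_of_notMem hkT
    have hle : T.card + 1 ≤ d := by rw [← hc]; exact hcard _
    have h1 : τ (p - (insert k T).card) (f (insert k T)) = f (insert k T) := by
      have := congrFun hf (insert k T)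
      rwa [hTr] at this
    have h2 : τ (p - T.card) (f (insert k T)) = f (insert k T) :=
      hτmono' _ _ _ h1 (by rw [hc]; omega)
    rw [map_sign_mul]
    have h3 : a k * f (insert k T) = (∑ i ∈ σ, c i k) • f (insert k T) := by
      rw [Algebra.smul_def]
    rw [h3, map_smul, h2]
    rcases Nat.even_or_odd (T.filter (· < k)).card with hn | hn
    · rw [hn.neg_one_pow, hn.neg_one_pow]; simp
    · rw [hn.neg_one_pow, hn.neg_one_pow]; simp
  let A : F →ₗ[ℚ] F := (koszulD θ).restrict hDθF
  let B : F →ₗ[ℚ] F := (koszulD a).restrict hDaF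
  obtain ⟨s, hs0, hs⟩ := exists_rank_le A B
  let w : Fin d → R := θ + s • a
  have hCw : ∀ f : F, (((A + s • B) f : F) : Finset (Fin d) → R) = koszulD w f := by
    intro f
    show _ = koszulD (θ + s • a) (f : Finset (Fin d) → R)
    rw [koszulD_add, koszulD_smul]
    rfl
  have hevw : ∀ k, ev (-s) (w k) = 0 := by
    intro k
    show ev (-s) (θ k + s • a k) = 0
    rw [map_add, hevθ, map_smul]
    show -s * ∑ i ∈ σ, c i k + s • (ev (-s)) (algebraMap ℚ R (∑ i ∈ σ, c i k)) = 0
    rw [AlgHom.commutes]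
    simp
  have hevD : ∀ f T, ev (-s) (koszulD w f T) = 0 := by
    intro f T
    rw [koszulD_apply, map_sum]
    refine Finset.sum_eq_zero fun k _ => ?_
    rw [map_mul, map_mul, hevw]
    ring
  -- the common kernel
  let Z : Submodule ℚ (Finset (Fin d) → ℚ) :=
    ⨅ i ∈ σ, LinearMap.ker (koszulD (R := ℚ) (c i))
  have hZ : ∀ ω, ω ∈ Z ↔ ∀ i ∈ σ, koszulD (R := ℚ) (c i) ω = 0 := by
    intro ω
    simp [Z, Submodule.mem_iInf]
  have hZdim : 2 ^ d ≤ 2 ^ σ.card * Module.finrank ℚ Z := by
    have := finrank_le_two_pow_mul (Λ := Finset (Fin d) → ℚ)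
      (fun i : Fin m => koszulD (R := ℚ) (c i)) σ (fun i _ y => koszulD_comp_self _ _)
      (fun i _ j _ y => koszulD_anticomm _ _ _)
    rw [Module.finrank_fintype_fun_eq_card] at this
    simpa using this
  -- the map Z → F
  have hφF : ∀ ω : Finset (Fin d) → ℚ, (fun S => ω S • u) ∈ F := by
    intro ω
    rw [hF]
    funext S
    rw [hTr, map_smul, hτmono' e (p - S.card) u hu (by have := hcard S; omega)]
  let φ : Z →ₗ[ℚ] F :=
    { toFun := fun ω => ⟨fun S => (ω : Finset (Fin d) → ℚ) S • u, hφF ω⟩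
      map_add' := by
        intro ω ω'
        apply Subtype.ext
        funext S
        simp [add_smul]
      map_smul' := by
        intro r ω
        apply Subtype.ext
        funext S
        simp [mul_smul] }
  have hφ : ∀ ω S, (φ ω : Finset (Fin d) → R) S = (ω : Finset (Fin d) → ℚ) S • u :=
    fun ω S => rfl
  have hkill : ∀ ω : Z, koszulD w (φ ω : Finset (Fin d) → R) = 0 := by
    intro ω
    funext T
    have hω := (hZ ω).mp ω.2
    rw [koszulD_apply]
    have h1 : ∀ k ∈ Tᶜ, (-1) ^ (T.filter (· < k)).card *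
        (w k * (φ ω : Finset (Fin d) → R) (insert k T))
        = ∑ i ∈ σ, ((-1 : ℚ) ^ (T.filter (· < k)).card *
          (c i k * (ω : Finset (Fin d) → ℚ) (insert k T))) • (u * x i + s • u) := by
      intro k _
      rw [hφ]
      have h2 : w k * u = ∑ i ∈ σ, c i k • (u * x i + s • u) := by
        show (θ k + s • a k) * u = _
        have h3 : (s • a k) * u = ∑ i ∈ σ, c i k • (s • u) := by
          rw [← Finset.sum_smul, smul_smul]
          show (s • (algebraMap ℚ R (∑ i ∈ σ, c i k))) * u = _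
          rw [smul_mul_assoc, ← Algebra.smul_def, smul_smul, mul_comm]
        rw [add_mul, mul_comm (θ k) u, huθ, h3, ← Finset.sum_add_distrib]
        refine Finset.sum_congr rfl fun i _ => ?_
        rw [smul_add]
      rw [mul_smul_comm, h2, Finset.smul_sum, Finset.mul_sum]
      refine Finset.sum_congr rfl fun i _ => ?_
      rw [smul_smul]
      rcases Nat.even_or_odd (T.filter (· < k)).card with hn | hn
      · rw [hn.neg_one_pow, hn.neg_one_pow, one_mul, one_mul, mul_comm]
      · rw [hn.neg_one_pow, hn.neg_one_pow, neg_one_mul, neg_one_mul, neg_smul, mul_comm]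
    rw [Finset.sum_congr rfl h1, Finset.sum_comm]
    refine Finset.sum_eq_zero fun i hi => ?_
    rw [← Finset.sum_smul]
    have h4 := congrFun (hω i hi) T
    rw [koszulD_apply] at h4
    rw [h4]
    simp
  have hCC : ∀ f : F, (A + s • B) ((A + s • B) f) = 0 := by
    intro f
    apply Subtype.ext
    rw [hCw, hCw, koszulD_comp_self]
    rfl
  set C : F →ₗ[ℚ] F := A + s • B with hC
  have hφinj : Function.Injective φ := by
    rw [← LinearMap.ker_eq_bot, LinearMap.ker_eq_bot']
    intro ω hω
    apply Subtype.ext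
    funext S
    have h1 : (φ ω : Finset (Fin d) → R) S = 0 := by rw [hω]; rfl
    rw [hφ] at h1
    have h2 := congrArg (ev (-s)) h1
    rw [map_smul, map_zero, smul_eq_mul, mul_eq_zero] at h2
    rcases h2 with h2 | h2
    · exact h2
    · exact absurd h2 (hevu (-s) (neg_ne_zero.mpr hs0))
  have hdisj : LinearMap.range φ ⊓ LinearMap.range C = ⊥ := by
    rw [eq_bot_iff]
    rintro y ⟨⟨ω, hω⟩, ⟨z, hz⟩⟩
    rw [Submodule.mem_bot]
    have hω0 : ω = 0 := by
      apply Subtype.ext
      funext S
      have h1 : (ω : Finset (Fin d) → ℚ) S • u = (koszulD w (z : Finset (Fin d) → R)) S := by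
        rw [← hφ, hω, ← hz, hCw]
      have h2 := congrArg (ev (-s)) h1
      rw [hevD, map_smul, smul_eq_mul, mul_eq_zero] at h2
      rcases h2 with h2 | h2
      · exact h2
      · exact absurd h2 (hevu (-s) (neg_ne_zero.mpr hs0))
    rw [← hω, hω0, map_zero]
  have hle1 : LinearMap.range φ ⊔ LinearMap.range C ≤ LinearMap.ker C := by
    refine sup_le ?_ ?_
    · rintro _ ⟨ω, rfl⟩
      rw [LinearMap.mem_ker]
      apply Subtype.ext
      rw [hCw, hkill]
      rfl
    · rintro _ ⟨f, rfl⟩
      rw [LinearMap.mem_ker]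
      exact hCC f
  have hdim1 : Module.finrank ℚ Z + Module.finrank ℚ (LinearMap.range C)
      ≤ Module.finrank ℚ (LinearMap.ker C) := by
    have h1 := Submodule.finrank_sup_add_finrank_inf_eq (LinearMap.range φ) (LinearMap.range C)
    rw [hdisj, finrank_bot, add_zero] at h1
    have h2 := Submodule.finrank_mono hle1
    have h3 : Module.finrank ℚ (LinearMap.range φ) = Module.finrank ℚ Z :=
      LinearMap.finrank_range_of_inj hφinj
    omega
  have hdim2 := LinearMap.finrank_range_add_finrank_ker C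
  have hdim3 := LinearMap.finrank_range_add_finrank_ker A
  -- map to the homology
  have hkerA : ∀ f : LinearMap.ker A,
      ((f : F) : Finset (Fin d) → R) ∈ cycles θ := by
    intro f
    have h1 : A f = 0 := f.2
    rw [cycles, LinearMap.mem_ker]
    have h2 : ((A f : F) : Finset (Fin d) → R) = koszulD θ f := rfl
    rw [← h2, h1]
    rfl
  let ψ : LinearMap.ker A →ₗ[ℚ] KoszulHomology θ :=
    (Submodule.mkQ _) ∘ₗ LinearMap.codRestrict (cycles θ)
      (F.subtype ∘ₗ (LinearMap.ker A).subtype) hkerA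
  have hkerψ : ∀ f ∈ LinearMap.ker ψ, (f : F) ∈ LinearMap.range A := by
    intro f hf
    rw [LinearMap.mem_ker] at hf
    have h1 : (LinearMap.codRestrict (cycles θ)
      (F.subtype ∘ₗ (LinearMap.ker A).subtype) hkerA f) ∈
      (boundaries θ).submoduleOf (cycles θ) := by
      rw [← Submodule.Quotient.mk_eq_zero]
      exact hf
    obtain ⟨y, hy⟩ := h1
    have hy' : koszulD θ y = ((f : F) : Finset (Fin d) → R) := hy
    refine ⟨⟨Tr y, ⟨y, rfl⟩⟩, ?_⟩
    apply Subtype.ext
    show koszulD θ (Tr y) = ((f : F) : Finset (Fin d) → R)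
    rw [← hcomm, hy', (hF _).mp (f : F).2]
  have hdim4 : Module.finrank ℚ (LinearMap.ker ψ) ≤ Module.finrank ℚ (LinearMap.range A) := by
    let L : LinearMap.ker ψ →ₗ[ℚ] LinearMap.range A :=
      LinearMap.codRestrict _ ((LinearMap.ker A).subtype ∘ₗ (LinearMap.ker ψ).subtype)
        (fun f => hkerψ f f.2)
    refine LinearMap.finrank_le_finrank_of_injective (f := L) ?_
    intro f g hfg
    apply Subtype.ext
    apply Subtype.ext
    exact congrArg (fun h : LinearMap.range A => (h : F)) hfg
  have hdim5 := LinearMap.finrank_range_add_finrank_ker (K := ℚ) (V := LinearMap.ker A) (V₂ := KoszulHomology θ) ψ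
  have hfinal : Module.finrank ℚ Z ≤ Module.finrank ℚ (LinearMap.range ψ) := by
    omega
  have hrank : (Module.finrank ℚ (LinearMap.range ψ) : Cardinal)
      ≤ totalRank θ := by
    rw [Module.finrank_eq_rank]
    exact Submodule.rank_le _
  calc (2 : Cardinal) ^ d = ((2 ^ d : ℕ) : Cardinal) := by push_cast; rfl
    _ ≤ ((2 ^ σ.card * Module.finrank ℚ (LinearMap.range ψ) : ℕ) : Cardinal) := by
        exact_mod_cast hZdim.trans (Nat.mul_le_mul_left _ hfinal)
    _ = 2 ^ σ.card * (Module.finrank ℚ (LinearMap.range ψ) : Cardinal) := by push_cast; rfl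
    _ ≤ _ := by gcongr

end Abstract

section Face

open MvPolynomial

variable {m : ℕ}

/-- The Stanley–Reisner ideal of `K`. -/
noncomputable def srIdeal (K : Finset (Finset (Fin m))) : Ideal (MvPolynomial (Fin m) ℚ) :=
  Ideal.span {p | ∃ τ : Finset (Fin m), τ ∉ K ∧ p = ∏ i ∈ τ, X i}

/-- The Stanley–Reisner ring `ℚ[K]`. -/
abbrev FaceRing (K : Finset (Finset (Fin m))) : Type :=
  MvPolynomial (Fin m) ℚ ⧸ srIdeal K

/-- The linear form `a_1 v_1 + ... + a_m v_m` in `ℚ[K]`. -/
noncomputable def linForm (K : Finset (Finset (Fin m))) (a : Fin m → ℤ) : FaceRing K :=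
  Ideal.Quotient.mk (srIdeal K) (∑ i, C (a i : ℚ) * X i)

/-- exponent of a squarefree monomial -/
noncomputable def expo (τ : Finset (Fin m)) : Fin m →₀ ℕ := ∑ i ∈ τ, Finsupp.single i 1

theorem prod_X_eq (τ : Finset (Fin m)) :
    (∏ i ∈ τ, X i : MvPolynomial (Fin m) ℚ) = monomial (expo τ) 1 := by
  classical
  rw [expo]
  induction τ using Finset.induction_on with
  | empty => simp
  | insert a s ha ih =>
    rw [Finset.prod_insert ha, Finset.sum_insert ha, ih, X, monomial_mul, one_mul]

theorem expo_apply (τ : Finset (Fin m)) (i : Fin m) : expo τ i = if i ∈ τ then 1 else 0 := by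
  classical
  rw [expo, Finsupp.finsetSum_apply]
  simp only [Finsupp.single_apply]
  rw [Finset.sum_ite_eq']

theorem expo_le_iff (τ : Finset (Fin m)) (s : Fin m →₀ ℕ) : expo τ ≤ s ↔ τ ⊆ s.support := by
  constructor
  · intro h i hi
    have := h i
    rw [expo_apply, if_pos hi] at this
    rw [Finsupp.mem_support_iff]
    omega
  · intro h i
    rw [expo_apply]
    split_ifs with hi
    · have := h hi
      rw [Finsupp.mem_support_iff] at this
      omega
    · exact Nat.zero_le _

theorem degree_expo (τ : Finset (Fin m)) : (expo τ).degree = τ.card := by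
  rw [expo, map_sum]
  simp

theorem mem_srIdeal_iff (K : Finset (Finset (Fin m)))
    (hK : ∀ σ ∈ K, ∀ τ : Finset (Fin m), τ ⊆ σ → τ ∈ K) (p : MvPolynomial (Fin m) ℚ) :
    p ∈ srIdeal K ↔ ∀ s ∈ p.support, s.support ∉ K := by
  have h1 : srIdeal K = Ideal.span ((fun s => monomial s (1 : ℚ)) ''
      {s | ∃ τ : Finset (Fin m), τ ∉ K ∧ s = expo τ}) := by
    rw [srIdeal]
    congr 1
    ext p
    constructor
    · rintro ⟨τ, hτ, rfl⟩
      exact ⟨expo τ, ⟨τ, hτ, rfl⟩, (prod_X_eq τ).symm⟩
    · rintro ⟨_, ⟨τ, hτ, rfl⟩, rfl⟩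
      exact ⟨τ, hτ, (prod_X_eq τ).symm⟩
  rw [h1, mem_ideal_span_monomial_image]
  refine forall₂_congr fun s _ => ?_
  constructor
  · rintro ⟨_, ⟨τ, hτ, rfl⟩, hle⟩ hs
    exact hτ (hK _ hs τ ((expo_le_iff τ s).mp hle))
  · intro hs
    exact ⟨expo s.support, ⟨s.support, hs, rfl⟩, (expo_le_iff _ _).mpr (Finset.Subset.refl _)⟩

/-- truncation of a polynomial to total degree `≤ q` -/
noncomputable def trP (q : ℕ) : MvPolynomial (Fin m) ℚ →ₗ[ℚ] MvPolynomial (Fin m) ℚ :=
  ∑ n ∈ Finset.range (q + 1), homogeneousComponent n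

theorem coeff_trP (q : ℕ) (p : MvPolynomial (Fin m) ℚ) (s : Fin m →₀ ℕ) :
    coeff s (trP q p) = if s.degree ≤ q then coeff s p else 0 := by
  classical
  rw [trP, LinearMap.sum_apply, coeff_sum]
  simp only [coeff_homogeneousComponent]
  rw [Finset.sum_ite_eq]
  simp only [Finset.mem_range, Nat.lt_succ_iff]

theorem support_trP (q : ℕ) (p : MvPolynomial (Fin m) ℚ) :
    (trP q p).support ⊆ p.support := by
  intro s hs
  rw [mem_support_iff] at hs ⊢
  rw [coeff_trP] at hs
  split_ifs at hs with h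
  · exact hs
  · exact absurd rfl hs

theorem trP_trP (q : ℕ) (p : MvPolynomial (Fin m) ℚ) : trP q (trP q p) = trP q p := by
  ext s
  rw [coeff_trP, coeff_trP]
  split_ifs <;> rfl

theorem trP_succ_trP (q : ℕ) (p : MvPolynomial (Fin m) ℚ) : trP (q + 1) (trP q p) = trP q p := by
  ext s
  rw [coeff_trP, coeff_trP]
  split_ifs with h1 h2 <;> first | rfl | (exfalso; omega)

theorem trP_X_mul (q : ℕ) (i : Fin m) (p : MvPolynomial (Fin m) ℚ) :
    trP (q + 1) (X i * p) = X i * trP q p := by
  classical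
  ext s
  rw [coeff_trP, coeff_X_mul', coeff_X_mul', coeff_trP]
  by_cases hi : i ∈ s.support
  · rw [if_pos hi, if_pos hi]
    have h1 : s = (s - Finsupp.single i 1) + Finsupp.single i 1 := by
      rw [tsub_add_cancel_of_le]
      rw [Finsupp.single_le_iff]
      rw [Finsupp.mem_support_iff] at hi
      omega
    have h2 : s.degree = (s - Finsupp.single i 1).degree + 1 := by
      conv_lhs => rw [h1]
      rw [map_add, Finsupp.degree_single]
    have h3 : s.degree ≤ q + 1 ↔ (s - Finsupp.single i 1).degree ≤ q := by omega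
    simp only [h3]
  · rw [if_neg hi, if_neg hi]
    simp

theorem trP_lin_mul (q : ℕ) (a : Fin m → ℚ) (p : MvPolynomial (Fin m) ℚ) :
    trP (q + 1) ((∑ i, C (a i) * X i) * p) = (∑ i, C (a i) * X i) * trP q p := by
  rw [Finset.sum_mul, Finset.sum_mul, map_sum]
  refine Finset.sum_congr rfl fun i _ => ?_
  rw [mul_assoc, mul_assoc, C_mul', C_mul', map_smul, trP_X_mul]

theorem finiteDimensional_range_trP (q : ℕ) :
    FiniteDimensional ℚ (LinearMap.range (trP (m := m) q)) := by
  classical
  have hfin : {s : Fin m →₀ ℕ | s.degree ≤ q}.Finite := Finsupp.finite_of_degree_le q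
  have hle : LinearMap.range (trP (m := m) q) ≤
      Submodule.span ℚ ((fun s => monomial s (1 : ℚ)) '' {s : Fin m →₀ ℕ | s.degree ≤ q}) := by
    rintro _ ⟨p, rfl⟩
    rw [(trP q p).as_sum]
    refine Submodule.sum_mem _ fun s hs => ?_
    have h1 : s.degree ≤ q := by
      by_contra h
      rw [mem_support_iff, coeff_trP, if_neg h] at hs
      exact hs rfl
    have h2 : monomial s (coeff s (trP q p)) = coeff s (trP q p) • monomial s (1 : ℚ) := by
      rw [smul_monomial, smul_eq_mul, mul_one]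
    rw [h2]
    exact Submodule.smul_mem _ _ (Submodule.subset_span ⟨s, h1, rfl⟩)
  have : FiniteDimensional ℚ
      (Submodule.span ℚ ((fun s => monomial s (1 : ℚ)) '' {s : Fin m →₀ ℕ | s.degree ≤ q})) :=
    FiniteDimensional.span_of_finite ℚ (hfin.image _)
  exact Submodule.finiteDimensional_of_le hle

variable (K : Finset (Finset (Fin m)))

/-- the quotient map as a `ℚ`-linear map -/
noncomputable def mkL : MvPolynomial (Fin m) ℚ →ₗ[ℚ] FaceRing K :=
  (Ideal.Quotient.mkₐ ℚ (srIdeal K)).toLinearMap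

theorem mkL_apply (p : MvPolynomial (Fin m) ℚ) :
    mkL K p = Ideal.Quotient.mk (srIdeal K) p := rfl

theorem mkL_surjective : Function.Surjective (mkL K) := Ideal.Quotient.mk_surjective

theorem ker_mkL (p : MvPolynomial (Fin m) ℚ) : mkL K p = 0 ↔ p ∈ srIdeal K := by
  rw [mkL_apply, Ideal.Quotient.eq_zero_iff_mem]

/-- truncation on `ℚ[K]` -/
theorem exists_trunc (hK : ∀ σ ∈ K, ∀ τ : Finset (Fin m), τ ⊆ σ → τ ∈ K) (q : ℕ) :
    ∃ t : FaceRing K →ₗ[ℚ] FaceRing K, ∀ p, t (mkL K p) = mkL K (trP q p) := by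
  obtain ⟨g, hg⟩ := LinearMap.exists_rightInverse_of_surjective (mkL K)
    (LinearMap.range_eq_top.mpr (mkL_surjective K))
  refine ⟨mkL K ∘ₗ trP q ∘ₗ g, fun p => ?_⟩
  have h1 : mkL K (g (mkL K p)) = mkL K p := by
    have := congrArg (fun h : FaceRing K →ₗ[ℚ] FaceRing K => h (mkL K p)) hg
    simpa using this
  show mkL K (trP q (g (mkL K p))) = mkL K (trP q p)
  rw [← sub_eq_zero, ← map_sub, ← map_sub, ker_mkL, mem_srIdeal_iff K hK]
  have h2 : g (mkL K p) - p ∈ srIdeal K := by
    rw [← ker_mkL, map_sub, h1, sub_self]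
  rw [mem_srIdeal_iff K hK] at h2
  exact fun s hs => h2 s (support_trP q _ hs)

/-- evaluation at the point with coordinates `s` on `σ` and `0` elsewhere -/
theorem exists_ev (σ : Finset (Fin m)) (hσ : σ ∈ K)
    (hK : ∀ σ ∈ K, ∀ τ : Finset (Fin m), τ ⊆ σ → τ ∈ K) (s : ℚ) :
    ∃ e : FaceRing K →ₐ[ℚ] ℚ, ∀ i, e (Ideal.Quotient.mk (srIdeal K) (X i))
      = if i ∈ σ then s else 0 := by
  have hker : ∀ a ∈ srIdeal K, aeval (R := ℚ) (fun i : Fin m => if i ∈ σ then s else 0) a = 0 := by
    have : srIdeal K ≤ RingHom.ker (aeval (R := ℚ) (fun i : Fin m => if i ∈ σ then s else 0)) := by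
      refine Ideal.span_le.mpr ?_
      rintro p ⟨τ, hτ, rfl⟩
      have h1 : ∃ i ∈ τ, i ∉ σ := by
        by_contra hcon
        push Not at hcon
        exact hτ (hK σ hσ τ hcon)
      obtain ⟨i, hi, hiσ⟩ := h1
      rw [SetLike.mem_coe, RingHom.mem_ker, map_prod]
      apply Finset.prod_eq_zero hi
      rw [aeval_X, if_neg hiσ]
    exact fun a ha => this ha
  refine ⟨Ideal.Quotient.liftₐ (srIdeal K) (aeval (fun i => if i ∈ σ then s else 0)) hker, ?_⟩
  intro i
  have h2 : Ideal.Quotient.liftₐ (srIdeal K) (aeval (fun i => if i ∈ σ then s else 0)) hker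
      (Ideal.Quotient.mk (srIdeal K) (X i))
      = aeval (R := ℚ) (fun i : Fin m => if i ∈ σ then s else 0) (X i) := rfl
  rw [h2, aeval_X]

theorem two_pow_le (hK : ∀ σ ∈ K, ∀ τ : Finset (Fin m), τ ⊆ σ → τ ∈ K)
    (d : ℕ) (θ : Fin d → Fin m → ℤ)
    (σ : Finset (Fin m)) (hσ : σ ∈ K) (hmax : ∀ τ ∈ K, σ ⊆ τ → τ = σ) :
    (2 : Cardinal) ^ d ≤ 2 ^ σ.card * totalRank (fun k => linForm K (θ k)) := by
  classical
  choose t ht using exists_trunc K hK
  choose ev hev using exists_ev K σ hσ hK
  have hsurj := mkL_surjective K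
  have hlin : ∀ k, linForm K (θ k) = ∑ i, (θ k i : ℚ) • mkL K (X i) := by
    intro k
    show mkL K (∑ i, C (θ k i : ℚ) * X i) = _
    rw [map_sum]
    refine Finset.sum_congr rfl fun i _ => ?_
    rw [C_mul', map_smul]
  have hu' : mkL K (∏ i ∈ σ, X i) = ∏ i ∈ σ, mkL K (X i) := by
    simp only [mkL_apply]
    rw [map_prod]
  refine main_abstract σ t ?_ ?_ ?_ (fun k => linForm K (θ k)) ?_ (mkL K (∏ i ∈ σ, X i)) σ.card
    ?_ (fun i k => (θ k i : ℚ)) ev ?_ ?_ (fun i => mkL K (X i)) ?_
  · intro q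
    have hle : LinearMap.range (t q) ≤ Submodule.map (mkL K) (LinearMap.range (trP (m := m) q)) := by
      rintro _ ⟨g, rfl⟩
      obtain ⟨p, rfl⟩ := hsurj g
      rw [ht]
      exact ⟨trP q p, ⟨p, rfl⟩, rfl⟩
    have := finiteDimensional_range_trP (m := m) q
    exact Submodule.finiteDimensional_of_le hle
  · intro q g
    obtain ⟨p, rfl⟩ := hsurj g
    rw [ht, ht, trP_trP]
  · intro q g hg
    obtain ⟨p, rfl⟩ := hsurj g
    rw [ht] at hg
    rw [← hg, ht, trP_succ_trP]
  · intro q k g
    obtain ⟨p, rfl⟩ := hsurj g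
    have h1 : ∀ p', linForm K (θ k) * mkL K p' = mkL K ((∑ i, C (θ k i : ℚ) * X i) * p') := by
      intro p'
      rw [mkL_apply, mkL_apply, map_mul]
      rfl
    rw [h1, ht, ht, h1, trP_lin_mul]
  · rw [ht]
    congr 1
    rw [prod_X_eq]
    ext s
    rw [coeff_trP, coeff_monomial]
    split_ifs with h1 h2
    · rfl
    · rfl
    · rename_i h3
      exfalso
      apply h1
      rw [← h3, degree_expo]
    · rfl
  · intro s k
    rw [hlin, map_sum, Finset.mul_sum]
    have h1 : ∀ i, ev s ((θ k i : ℚ) • mkL K (X i)) = if i ∈ σ then s * (θ k i : ℚ) else 0 := by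
      intro i
      rw [map_smul, mkL_apply, hev]
      split_ifs
      · rw [smul_eq_mul, mul_comm]
      · simp
    simp only [h1]
    rw [Finset.sum_ite_mem, Finset.univ_inter]
  · intro s hs
    rw [hu', map_prod]
    refine Finset.prod_ne_zero_iff.mpr fun i hi => ?_
    rw [mkL_apply, hev, if_pos hi]
    exact hs
  · intro k
    rw [hlin, Finset.mul_sum]
    have h1 : ∀ i, mkL K (∏ i ∈ σ, X i) * ((θ k i : ℚ) • mkL K (X i))
        = if i ∈ σ then (θ k i : ℚ) • (mkL K (∏ i ∈ σ, X i) * mkL K (X i)) else 0 := by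
      intro i
      rw [mul_smul_comm]
      split_ifs with hi
      · rfl
      · have h2 : mkL K (∏ i ∈ σ, X i) * mkL K (X i) = 0 := by
          rw [mkL_apply, mkL_apply, ← map_mul, Ideal.Quotient.eq_zero_iff_mem]
          apply Ideal.subset_span
          refine ⟨insert i σ, ?_, ?_⟩
          · intro hin
            have := hmax _ hin (Finset.subset_insert i σ)
            exact hi (this ▸ Finset.mem_insert_self i σ)
          · rw [Finset.prod_insert hi, mul_comm]
        rw [h2, smul_zero]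
    simp only [h1]
    rw [Finset.sum_ite_mem, Finset.univ_inter]

theorem zero_char (t : Fin m → Circle) : ∏ i, t i ^ (0 : Fin m → ℤ) i = 1 := by
  simp

theorem add_char (t : Fin m → Circle) (a b : Fin m → ℤ) (ha : ∏ i, t i ^ a i = 1)
    (hb : ∏ i, t i ^ b i = 1) : ∏ i, t i ^ (a + b) i = 1 := by
  simp only [Pi.add_apply, zpow_add, Finset.prod_mul_distrib]
  rw [ha, hb, one_mul]

theorem neg_char (t : Fin m → Circle) (a : Fin m → ℤ) (ha : ∏ i, t i ^ a i = 1) :
    ∏ i, t i ^ (-a) i = 1 := by
  simp only [Pi.neg_apply, zpow_neg, Finset.prod_inv_distrib]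
  rw [ha, inv_one]

/-- The lattice of the exponent vectors `a ∈ ℤ^m` whose character `t ↦ ∏ t_i ^ a_i` of `T^m` is
trivial on `H`: the character lattice of the quotient group `T^m / H`. -/
def charLattice (H : Subgroup (Fin m → Circle)) : AddSubgroup (Fin m → ℤ) where
  carrier := {a | ∀ t ∈ H, ∏ i, t i ^ a i = 1}
  zero_mem' := fun t _ => zero_char t
  add_mem' := fun ha hb t ht => add_char t _ _ (ha t ht) (hb t ht)
  neg_mem' := fun ha t ht => neg_char t _ (ha t ht)

/-- The total rational dimension of the Koszul homology of the face ring `ℚ[K]` with respect to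
the linear forms with coefficient vectors `a 0, ..., a (d-1)`. -/
noncomputable def torRank {d : ℕ} (K : Finset (Finset (Fin m))) (a : Fin d → Fin m → ℤ) :
    Cardinal :=
  totalRank (R := FaceRing K) (fun k => linForm K (a k))

end Face

/-- **Lower bound for the total rational Betti number of a partial quotient, facet form.**
Let `K` be a simplicial complex on `[m]`, `H` a subgroup of `T^m`, `θ_1, ..., θ_d` a basis of the
character lattice of `T^m / H` and `σ` a facet of `K`. Then the Koszul homology of the sequence of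
linear forms `θ_1, ..., θ_d` on the Stanley–Reisner ring `ℚ[K]`, that is
`Tor^{H^*(B(T^m/H))}(ℚ[K], ℚ)`, has total dimension at least `2^(d - |σ|)`. -/
theorem result {m : ℕ} (K : Finset (Finset (Fin m)))
    (hK : ∀ σ ∈ K, ∀ τ : Finset (Fin m), τ ⊆ σ → τ ∈ K)
    (H : Subgroup (Fin m → Circle)) (d : ℕ) (θ : Module.Basis (Fin d) ℤ (charLattice H))
    (σ : Finset (Fin m)) (hσ : σ ∈ K) (hmax : ∀ τ ∈ K, σ ⊆ τ → τ = σ) :
    (2 : Cardinal) ^ d ≤ 2 ^ σ.card * torRank K (fun k => (θ k : Fin m → ℤ)) :=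
  two_pow_le K hK d (fun k => (θ k : Fin m → ℤ)) σ hσ hmax

end Pool.Agent.Results.MP_aa3a86_gt.FacetBettiBound
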